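import Pool.Agent.G02.Stmts

set_option autoImplicit false

/-!
# Squad G02, row LH: local lemma
-/

namespace Pool.Agent.G02.H16

/-- LH -/
theorem lh : LhStmt := by
  intro a b d M e N B hQ l _ a₁ b₁ hl2 ha hb hleg hd
  have hl : l.Prime := Fact.out
  have hlp : Prime (l : ℤ) := Nat.prime_iff_prime_int.1 hl
  have hl0 : (l : ℤ) ≠ 0 := hlp.ne_zero
  obtain ⟨d₁, hd₁⟩ := hd
  have hnd : ¬ (l : ℤ) ∣ d₁ := by
    rintro ⟨k, hk⟩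
    have h1 : (l : ℤ) * l ∣ d := ⟨k, by rw [hd₁, hk]; ring⟩
    exact hlp.not_isUnit (hQ.sqf _ h1)
  have h1 : (l : ℤ) * b₁ = d₁ * B := by
    have h2 : (l : ℤ) * (l * b₁) = l * (d₁ * B) := by
      have h3 := hQ.hb
      rw [hb, hd₁] at h3
      linear_combination h3
    exact mul_left_cancel₀ hl0 h2
  obtain ⟨B₁, hB₁⟩ : (l : ℤ) ∣ B := by
    have h2 : (l : ℤ) ∣ d₁ * B := ⟨b₁, h1.symm⟩
    exact (hlp.dvd_or_dvd h2).resolve_left hnd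
  have hb₁ : b₁ = d₁ * B₁ := by
    apply mul_left_cancel₀ hl0
    rw [h1, hB₁]
    ring
  have hne : ¬ (l : ℤ) ∣ e := by
    intro h2
    have h3 : (l : ℤ) ∣ d * M := ⟨d₁ * M, by rw [hd₁]; ring⟩
    exact hlp.not_isUnit (hQ.cop.isUnit_of_dvd' h3 h2)
  obtain ⟨N₁, hN₁⟩ : (l : ℤ) ∣ N := by
    apply hlp.dvd_of_dvd_pow (n := 2)
    refine ⟨d₁ * M ^ 4 + a₁ * M ^ 2 * e ^ 2 + B₁ * e ^ 4, ?_⟩
    rw [hQ.eq, hd₁, ha, hB₁]
    ring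
  have h4 : (l : ℤ) * N₁ ^ 2 = d₁ * M ^ 4 + a₁ * M ^ 2 * e ^ 2 + B₁ * e ^ 4 := by
    apply mul_left_cancel₀ hl0
    have h5 := hQ.eq
    rw [hd₁, ha, hB₁, hN₁] at h5
    linear_combination h5
  have h5 : (a₁ ^ 2 - 4 * b₁) * e ^ 4 = (2 * d₁ * M ^ 2 + a₁ * e ^ 2) ^ 2 -
      (l : ℤ) * (4 * d₁ * N₁ ^ 2) := by
    rw [hb₁]
    linear_combination (4 * d₁) * h4
  rw [legendreSym.eq_neg_one_iff] at hleg
  apply hleg
  have he : (e : ZMod l) ≠ 0 := by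
    rw [Ne, ZMod.intCast_zmod_eq_zero_iff_dvd]
    exact hne
  have h6 := congrArg (fun z : ℤ => (z : ZMod l)) h5
  simp only [Int.cast_mul, Int.cast_pow, Int.cast_sub, Int.cast_add, Int.cast_ofNat,
    Int.cast_natCast, CharP.cast_eq_zero, zero_mul, sub_zero] at h6
  refine ⟨(2 * (d₁ : ZMod l) * M ^ 2 + a₁ * e ^ 2) / e ^ 2, ?_⟩
  push_cast
  field_simp
  linear_combination h6

end Pool.Agent.G02.H16
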